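import Pool.Agent.Helper33.NS4

/-!
# The Euler characteristic and all the `ℓ²`-Betti numbers, for the Davis manifolds of ALL flag spheres

Let the flag complex of the finite graph `G` be a real homology manifold with the real homology of the
sphere of dimension `n - 1`, `n = 2 m + 2` (`HSph`; for example any flag triangulation of the
`(n - 1)`-sphere), so that the torsion-free subgroups of finite index of the right-angled Coxeter group
`W G` are the fundamental groups of closed aspherical (homology) manifolds.  For `i > n / 2` let `B i` be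
a set of vertices which contains all the vertices whose links are not in the class `AQ (2 i - 3)` of the
starting library; `f_i` is the number of the cliques with `i` elements contained in `B i`.
-/

set_option autoImplicit false

namespace Pool.Agent.Results.MP_394d50_gt.EulerCharacteristicBound

open Pool.Agent.W907.SG Pool.Agent.W907.SM Pool.Agent.TH652.Above Pool.Agent.Y132.SI
open Pool.Agent.Helper33.NS (cliqueNum)
open Pool.Agent.Helper33.NSF

/-- (1) If `f_i = 0` for all `i > n / 2` then the `ℓ²`-homology vanishes in all degrees if and only if the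
Euler characteristic is zero.
(2) In general, if the Euler characteristic is zero then all the normalised Betti numbers of all far
enough subgroups `H` of finite index of the commutator subgroup are bounded by the bad simplices: they
are at most `f_i / 2^i + ε` in the degrees `i` and `n - i`, `i > n / 2`, and at most
`2 (f_{m+2} / 2^{m+2} + f_{m+4} / 2^{m+4} + ...) + ε` in the degree `n / 2`. -/
theorem result (m : ℕ) (V : Type) [Fintype V] [LinearOrder V] (G : SimpleGraph V)
    (hS : HSph (2 * m + 2) G) (B : ℕ → Set V) (hB : GoodOutside G B (m + 2)) :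
    ((∀ i : ℕ, m + 1 < i → cliqueNum G (B i) i = 0) → ((∀ i : ℕ, L2Van G i) ↔ chiW G = 0)) ∧
    (chiW G = 0 → ∀ ε : ℝ, 0 < ε → ∃ E : Finset (W G), (1 : W G) ∉ E ∧
      ∀ H : Subgroup (W G), H ≤ commutator (W G) → H.FiniteIndex →
        (∀ g ∈ E, ∀ x : W G, x * g * x⁻¹ ∉ H) →
        (∀ i : ℕ, m + 1 < i → (Module.finrank ℝ (HInv G H i) : ℝ) ≤
          ((cliqueNum G (B i) i : ℝ) / 2 ^ i + ε) * H.index) ∧
        (∀ i : ℕ, i < m + 1 → (Module.finrank ℝ (HInv G H i) : ℝ) ≤
          ((cliqueNum G (B (2 * m + 2 - i)) (2 * m + 2 - i) : ℝ) / 2 ^ (2 * m + 2 - i) + ε) *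
            H.index) ∧
        (Module.finrank ℝ (HInv G H (m + 1)) : ℝ) ≤ (2 * (badEven G B m : ℝ) + ε) * H.index) := by
  refine ⟨fun h0 => ?_, fun hχ ε hε => ?_⟩
  · refine l2eul V G (m + 1) fun i hi => ?_
    rcases lt_or_gt_of_ne hi with h | h
    · exact (l2van_sphere G m hS B hB (2 * m + 2 - i) (by omega) (h0 _ (by omega))).2 i (by omega)
    · exact (l2van_sphere G m hS B hB i h (h0 i h)).1
  · obtain ⟨E, hE1, hE2⟩ := near_singer G m hS B hB ε hε
    refine ⟨E, hE1, fun H hH hf hE => ?_⟩
    obtain ⟨h1, h2, h3, _⟩ := hE2 H hH hf hE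
    refine ⟨h1, h2, ?_⟩
    rw [hχ, Rat.cast_zero, mul_zero, zero_add] at h3
    exact h3

end Pool.Agent.Results.MP_394d50_gt.EulerCharacteristicBound
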