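import Pool.Agent.Y132.SI.Free
import Pool.Agent.W907.SM.Final

/-!
# `ℓ²`-acyclicity, Euler characteristic and sublinear Betti numbers for reflection manifolds

Let `L` be the flag complex of the finite graph `G`, and suppose that `L` is a real homology manifold with the real
homology of the `(n-1)`-sphere (`HSph n G`). The quotients of the Davis complex of the right-angled Coxeter group `W G`
by the torsion-free subgroups of finite index are closed aspherical `n`-manifolds (real homology manifolds in this
generality). Suppose that `G` is in the class `AQ n`. It contains the order complexes of the graded posets of length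
`n` which are Gorenstein* over `F_2` (for example the barycentric subdivisions of all triangulated `(n-1)`-spheres)
and is closed under the operations listed in its definition: joins, glueing, edge subdivisions and deletions, ...; in
the even dimensions `n = 2 m + 2` it contains every flag complex for which the vertices whose links are not in the
class `AQ (2 m + 1)` span a subcomplex of dimension at most `m`.

The following are equivalent: all `ℓ²`-Betti numbers vanish; the Euler characteristic vanishes; the ordinary
Betti numbers (in all degrees) of the subgroups `H` of finite index are at most `ε [W G : H]`, if `H` contains no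
conjugate of the elements of some finite set `E = E(ε)` of nontrivial elements; the middle Betti numbers of these
subgroups are. If they do not hold, then `n = 2 m` is even, `(-1)^m χ > 0`, there are nonzero `ℓ²` harmonic
`m`-chains, and the `m`-th Betti numbers of these subgroups are `((-1)^m χ ± ε) [W G : H]`.
-/

set_option autoImplicit false

namespace Pool.Agent.Results.MP_394d50_gt.SublinearBettiNumbers

open Pool.Agent.W907.SG Pool.Agent.W907.SM Pool.Agent.TH652.Above Pool.Agent.Y132.SI

/-- For every `ε > 0` there is a finite set `E` of nontrivial elements of `W G` such that `P ε H` holds for all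
subgroups `H` of finite index which contain no conjugate of an element of `E`. -/
def Deep {V : Type} (G : SimpleGraph V) (P : ℝ → Subgroup (W G) → Prop) : Prop :=
  ∀ ε : ℝ, 0 < ε → ∃ E : Finset (W G), (1 : W G) ∉ E ∧
    ∀ H : Subgroup (W G), H.FiniteIndex → (∀ g ∈ E, ∀ x : W G, x * g * x⁻¹ ∉ H) → P ε H

/-- the `i`-th real Betti number of `H`: the dimension of the space of the `H`-invariant real harmonic `i`-chains of
the Davis complex -/
noncomputable def betti {V : Type} [Fintype V] [LinearOrder V] (G : SimpleGraph V) (i : ℕ)
    (H : Subgroup (W G)) : ℝ := Module.finrank ℝ (HInv G H i)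

/-- **`ℓ²`-acyclicity is equivalent to the vanishing of the Euler characteristic and to the sublinear growth of the
Betti numbers**; see the beginning of the file. -/
theorem result : ∀ (n : ℕ) (V : Type) [Fintype V] [LinearOrder V] (G : SimpleGraph V), HSph n G → AQ n G →
    List.TFAE [∀ i : ℕ, L2Van G i,
      chiW G = 0,
      Deep G fun ε H => ∀ i : ℕ, betti G i H ≤ ε * H.index,
      ∀ i : ℕ, 2 * i = n → Deep G fun ε H => betti G i H ≤ ε * H.index] ∧
    (¬ (∀ i : ℕ, L2Van G i) → ∃ m : ℕ, n = 2 * m ∧ 0 < (-1 : ℚ) ^ m * chiW G ∧
      (∀ i : ℕ, L2Van G i ↔ i ≠ m) ∧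
      Deep G fun ε H => (∀ i : ℕ, i ≠ m → betti G i H ≤ ε * H.index) ∧
        |betti G m H - (-1) ^ m * (chiW G : ℝ) * H.index| ≤ ε * H.index) := by
  intro n V _ _ G hS hA
  have hL : ∀ i : ℕ, 2 * i ≠ n → L2Van G i := fun i hi => singer_AQ hS hA i hi
  have h12 : (∀ i : ℕ, L2Van G i) ↔ chiW G = 0 :=
    l2eul V G (n / 2) fun i hi => hL i (by omega)
  constructor
  · tfae_have 1 ↔ 2 := h12
    tfae_have 2 → 3 := fun h => (chi_iff G n hL).1 h
    tfae_have 3 → 4 := by
      intro h i _ ε hε
      obtain ⟨E, h1, h2⟩ := h ε hε
      exact ⟨E, h1, fun H hf hE => h2 H hf hE i⟩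
    tfae_have 4 → 2 := by
      intro h
      refine (chi_iff G n hL).2 fun ε hε => ?_
      obtain ⟨E₁, h1, h2⟩ := growth_free G n hL ε hε
      have h3 : ∀ H : Subgroup (W G), H.FiniteIndex → (∀ g ∈ E₁, ∀ x : W G, x * g * x⁻¹ ∉ H) →
          ∀ i : ℕ, 2 * i ≠ n → (Module.finrank ℝ (HInv G H i) : ℝ) ≤ ε * H.index := by
        intro H hf hE i hi
        have h4 := h2 H hf hE i
        rw [if_neg hi, zero_mul, sub_zero] at h4
        exact (le_abs_self _).trans h4
      by_cases hn : 2 * (n / 2) = n
      · obtain ⟨E₂, h5, h6⟩ := h (n / 2) hn ε hε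
        classical
        refine ⟨E₁ ∪ E₂, ?_, fun H hf hE i => ?_⟩
        · rw [Finset.mem_union]
          rintro (h7 | h7)
          · exact h1 h7
          · exact h5 h7
        · by_cases hi : 2 * i = n
          · obtain rfl : i = n / 2 := by omega
            exact h6 H hf fun g hg => hE g (Finset.mem_union_right _ hg)
          · exact h3 H hf (fun g hg => hE g (Finset.mem_union_left _ hg)) i hi
      · exact ⟨E₁, h1, fun H hf hE i => h3 H hf hE i (by omega)⟩
    tfae_finish
  · intro hne
    have hn : n = 2 * (n / 2) := by
      by_contra hn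
      exact hne fun i => hL i (by omega)
    have hLm : ∀ i : ℕ, i ≠ n / 2 → L2Van G i := fun i hi => hL i (by omega)
    have hχ : chiW G ≠ 0 := fun h => hne (h12.2 h)
    refine ⟨n / 2, hn, lt_of_le_of_ne (chi_sign G hLm) ?_, fun i => ⟨?_, hLm i⟩, fun ε hε => ?_⟩
    · refine Ne.symm (mul_ne_zero (pow_ne_zero _ (by norm_num)) hχ)
    · rintro h rfl
      refine hne fun j => ?_
      by_cases hj : j = n / 2
      · rw [hj]; exact h
      · exact hLm j hj
    · obtain ⟨E, h1, h2⟩ := growth_free G n hL ε hε
      refine ⟨E, h1, fun H hf hE => ⟨fun i hi => ?_, ?_⟩⟩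
      · have h4 := h2 H hf hE i
        rw [if_neg (by omega), zero_mul, sub_zero] at h4
        exact (le_abs_self _).trans h4
      · have h4 := h2 H hf hE (n / 2)
        rw [if_pos hn.symm] at h4
        exact h4

end Pool.Agent.Results.MP_394d50_gt.SublinearBettiNumbers
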